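import Pool.Agent.Run7.h304.UC.MEA
import Pool.Agent.Q14.UM.EK

/-!
# Project UC (helper74), piece CHV (helper304): the characteristic function relative to every Dirichlet polynomial, in the mean
-/

set_option autoImplicit false

namespace Pool.Agent.Run7.h304.UC

open Filter Topology MeasureTheory Complex
open Pool.Agent.Q97.UM
open Pool.Agent.Run7.h74.UC

noncomputable section

/-! ### elementary estimates -/

theorem exp_qp {r : ℝ} (hr0 : 0 ≤ r) (hr1 : r ≤ 1) {w v z : ℂ} (hw : ‖w‖ ≤ r) (hv : ‖v‖ ≤ r ^ 2 / 2) (hz : ‖z‖ = 1) :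
    ‖cexp (I * ((w * z + v * z ^ 2).re : ℝ)) - (1 + I * ((w * z + v * z ^ 2).re : ℝ) - 1 / 2 * (((w * z).re ^ 2 : ℝ) : ℂ))‖ ≤
      20 * r ^ 3 := by
  set x : ℝ := (w * z + v * z ^ 2).re with hx
  set y : ℝ := (w * z).re with hy
  have hy1 : |y| ≤ r := by
    refine (Complex.abs_re_le_norm _).trans ?_
    rw [norm_mul, hz, mul_one]
    exact hw
  have hxy : |x - y| ≤ r ^ 2 / 2 := by
    have e : x - y = (v * z ^ 2).re := by rw [hx, hy, Complex.add_re]; ring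
    rw [e]
    refine (Complex.abs_re_le_norm _).trans ?_
    rw [norm_mul, norm_pow, hz, one_pow, mul_one]
    exact hv
  have hx1 : |x| ≤ 3 / 2 * r := by
    have : |x| ≤ |x - y| + |y| := by
      have := abs_add_le (x - y) y
      simpa using this
    nlinarith
  have h1 := Complex.norm_exp_sub_sum_le_norm_mul_exp (I * (x : ℂ)) 3
  have hn : ‖I * (x : ℂ)‖ = |x| := by simp
  rw [hn] at h1
  have e1 : ∑ m ∈ Finset.range 3, (I * (x : ℂ)) ^ m / (m.factorial : ℂ) = 1 + I * x - 1 / 2 * (x : ℂ) ^ 2 := by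
    simp only [Finset.sum_range_succ, Finset.sum_range_zero]
    norm_num [Nat.factorial]
    rw [mul_pow, I_sq]
    ring
  rw [e1] at h1
  have h2 : |x| ^ 3 * Real.exp |x| ≤ 19 * r ^ 3 := by
    have a1 : |x| ^ 3 ≤ (3 / 2 * r) ^ 3 := pow_le_pow_left₀ (abs_nonneg _) hx1 3
    have a2 : Real.exp |x| ≤ 5 := by
      have : |x| ≤ 3 / 2 := by nlinarith
      refine (Real.exp_le_exp.2 this).trans ?_
      have h5 := Real.exp_one_lt_d9
      have h6 : Real.exp (3 / 2) * Real.exp (3 / 2) = Real.exp 1 * Real.exp 1 * Real.exp 1 := by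
        rw [← Real.exp_add, ← Real.exp_add, ← Real.exp_add]; norm_num
      have h7 := Real.exp_pos (3 / 2 : ℝ)
      have h8 := Real.exp_pos (1 : ℝ)
      have h9 : Real.exp 1 * Real.exp 1 * Real.exp 1 ≤ 25 := by
        have : Real.exp 1 * Real.exp 1 ≤ 7.5 := by nlinarith
        nlinarith
      nlinarith
    have a3 : 0 ≤ r ^ 3 := by positivity
    calc |x| ^ 3 * Real.exp |x| ≤ (3 / 2 * r) ^ 3 * 5 :=
          mul_le_mul a1 a2 (Real.exp_pos _).le (by positivity)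
      _ ≤ 19 * r ^ 3 := by nlinarith
  have h3 : ‖(1 / 2 : ℂ) * (((y ^ 2 : ℝ) : ℂ)) - 1 / 2 * (x : ℂ) ^ 2‖ ≤ r ^ 3 := by
    have e2 : (1 / 2 : ℂ) * (((y ^ 2 : ℝ) : ℂ)) - 1 / 2 * (x : ℂ) ^ 2 = ((-(1 / 2) * ((x - y) * (x + y)) : ℝ) : ℂ) := by
      push_cast; ring
    rw [e2, Complex.norm_real, Real.norm_eq_abs, abs_mul, abs_mul]
    have b1 : |x + y| ≤ 5 / 2 * r := by
      have := abs_add_le x y
      linarith
    have b2 : |x - y| * |x + y| ≤ r ^ 2 / 2 * (5 / 2 * r) := mul_le_mul hxy b1 (abs_nonneg _) (by positivity)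
    have b3 : |(-(1 / 2) : ℝ)| = 1 / 2 := by norm_num
    rw [b3]
    nlinarith [pow_nonneg hr0 3]
  have e3 : cexp (I * (x : ℂ)) - (1 + I * (x : ℂ) - 1 / 2 * ((y ^ 2 : ℝ) : ℂ)) =
      (cexp (I * (x : ℂ)) - (1 + I * x - 1 / 2 * (x : ℂ) ^ 2)) + ((1 / 2 : ℂ) * (((y ^ 2 : ℝ) : ℂ)) - 1 / 2 * (x : ℂ) ^ 2) := by
    ring
  rw [e3]
  refine (norm_add_le _ _).trans ?_
  linarith

theorem prod_sub (s : Finset ℕ) (e q : ℕ → ℂ) (δ : ℕ → ℝ) (he : ∀ p ∈ s, ‖e p‖ = 1) (hq : ∀ p ∈ s, ‖e p - q p‖ ≤ δ p) :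
    ‖∏ p ∈ s, e p - ∏ p ∈ s, q p‖ ≤ Real.exp (∑ p ∈ s, δ p) - 1 := by
  have h0 : ∀ p ∈ s, e p ≠ 0 := fun p hp h => by
    have := he p hp
    rw [h, norm_zero] at this
    exact zero_ne_one this
  have h1 : ∏ p ∈ s, q p = (∏ p ∈ s, e p) * ∏ p ∈ s, (1 + (q p / e p - 1)) := by
    rw [← Finset.prod_mul_distrib]
    refine Finset.prod_congr rfl fun p hp => ?_
    have := h0 p hp
    field_simp
    ring
  have h2 : ‖∏ p ∈ s, e p‖ = 1 := by
    rw [norm_prod]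
    exact Finset.prod_eq_one he
  have h3 := Finset.norm_prod_one_add_sub_one_le s (fun p => q p / e p - 1)
  rw [h1, ← mul_one_sub, norm_mul, h2, one_mul, norm_sub_rev]
  refine h3.trans ?_
  have h4 : ∑ p ∈ s, ‖q p / e p - 1‖ ≤ ∑ p ∈ s, δ p := by
    refine Finset.sum_le_sum fun p hp => ?_
    have e1 : q p / e p - 1 = (q p - e p) / e p := by
      have := h0 p hp
      field_simp
    rw [e1, norm_div, he p hp, div_one, norm_sub_rev]
    exact hq p hp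
  linarith [Real.exp_le_exp.2 h4]

theorem tel (n : ℕ) (hn : 1 ≤ n) : (n : ℝ) ^ (-(3 / 2) : ℝ) ≤ 4 / Real.sqrt n - 4 / Real.sqrt ((n + 1 : ℕ) : ℝ) := by
  have hn' : (1 : ℝ) ≤ n := by exact_mod_cast hn
  have hn0 : (0 : ℝ) < n := by linarith
  set s := Real.sqrt n with hs
  set t := Real.sqrt ((n + 1 : ℕ) : ℝ) with ht
  have hs0 : 0 < s := Real.sqrt_pos.2 hn0
  have ht0 : 0 < t := Real.sqrt_pos.2 (by positivity)
  have hs2 : s ^ 2 = n := Real.sq_sqrt hn0.le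
  have ht2 : t ^ 2 = n + 1 := by
    rw [ht, Real.sq_sqrt (by positivity)]
    push_cast
    ring
  have e1 : (n : ℝ) ^ (-(3 / 2) : ℝ) = 1 / s ^ 3 := by
    rw [hs, Real.sqrt_eq_rpow, ← Real.rpow_natCast, ← Real.rpow_mul hn0.le, Real.rpow_neg hn0.le, one_div]
    norm_num
  rw [e1]
  have e2 : 4 / s - 4 / t = 4 / (s * t * (s + t)) := by
    have : (t - s) * (t + s) = 1 := by nlinarith
    field_simp
    nlinarith
  rw [e2, div_le_div_iff₀ (by positivity) (by positivity)]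
  have h1 : t ≤ 3 / 2 * s := by
    refine abs_le_of_sq_le_sq' ?_ (by positivity) |>.2
    nlinarith
  have h2 : t * (s + t) ≤ 4 * s ^ 2 := by nlinarith
  nlinarith [mul_le_mul_of_nonneg_left h2 hs0.le]

theorem tel_sum (m : ℕ) (hm : 1 ≤ m) (k : ℕ) : ∑ n ∈ Finset.Ico m (m + k), (n : ℝ) ^ (-(3 / 2) : ℝ) ≤
    4 / Real.sqrt m - 4 / Real.sqrt ((m + k : ℕ) : ℝ) := by
  induction k with
  | zero => simp
  | succ k ih =>
    rw [← add_assoc, Finset.sum_Ico_succ_top (by omega)]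
    have := tel (m + k) (by omega)
    linarith

theorem UP_sum (D : ℝ) (hD : 2 ≤ D) (j₀ : ℕ) : ∑ p ∈ UP D j₀, (p : ℝ) ^ (-(3 / 2) : ℝ) ≤ 4 / D := by
  have hsub : UP D j₀ ⊆ Finset.Ico (⌊D ^ 2⌋₊ + 1) (⌊D ^ 2⌋₊ + 1 + (⌊XB D j₀⌋₊ + 1)) := by
    intro p hp
    unfold UP at hp
    rw [Finset.mem_filter, Finset.mem_Icc] at hp
    rw [Finset.mem_Ico]
    have : ⌊D ^ 2⌋₊ < p := (Nat.floor_lt (by positivity)).2 hp.2.2
    exact ⟨this, by omega⟩
  have h1 : ∑ p ∈ UP D j₀, (p : ℝ) ^ (-(3 / 2) : ℝ) ≤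
      ∑ n ∈ Finset.Ico (⌊D ^ 2⌋₊ + 1) (⌊D ^ 2⌋₊ + 1 + (⌊XB D j₀⌋₊ + 1)), (n : ℝ) ^ (-(3 / 2) : ℝ) :=
    Finset.sum_le_sum_of_subset_of_nonneg hsub fun n _ _ => Real.rpow_nonneg (Nat.cast_nonneg _) _
  refine h1.trans ((tel_sum _ (by omega) _).trans ?_)
  have h2 : D ≤ Real.sqrt ((⌊D ^ 2⌋₊ + 1 : ℕ) : ℝ) := by
    refine Real.le_sqrt_of_sq_le ?_
    push_cast
    exact (Nat.lt_floor_add_one _).le
  have h3 : 4 / Real.sqrt ((⌊D ^ 2⌋₊ + 1 : ℕ) : ℝ) ≤ 4 / D := div_le_div_of_nonneg_left (by norm_num) (by linarith) h2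
  have h4 : 0 ≤ 4 / Real.sqrt ((⌊D ^ 2⌋₊ + 1 + (⌊XB D j₀⌋₊ + 1) : ℕ) : ℝ) := by positivity
  linarith

theorem mem_UP {D : ℝ} {j₀ p : ℕ} (h : p ∈ UP D j₀) : p.Prime ∧ D ^ 2 < p := by
  unfold UP at h
  rw [Finset.mem_filter] at h
  exact h.2

theorem dvd_sum (D : ℝ) (hD : 2 ≤ D) (j₀ N n : ℕ) (hn : 1 ≤ n) (hnN : n ≤ N) (hN : Real.log N ≤ D) :
    ∑ p ∈ (UP D j₀).filter (fun p => p ∣ n), 1 / (p : ℝ) ≤ 1 := by
  set s := (UP D j₀).filter (fun p => p ∣ n) with hs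
  have hp : ∀ p ∈ s, p.Prime ∧ D ^ 2 < p ∧ p ∣ n := fun p hp => by
    rw [hs, Finset.mem_filter] at hp
    exact ⟨(mem_UP hp.1).1, (mem_UP hp.1).2, hp.2⟩
  have h1 : ∏ p ∈ s, p ∣ n := Finset.prod_primes_dvd n (fun p h => (hp p h).1.prime) fun p h => (hp p h).2.2
  have h2 : (∏ p ∈ s, (p : ℝ)) ≤ n := by
    have h := Nat.le_of_dvd hn h1
    calc (∏ p ∈ s, (p : ℝ)) = ((∏ p ∈ s, p : ℕ) : ℝ) := (Nat.cast_prod _ _).symm
      _ ≤ n := Nat.cast_le.2 h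
  have h3 : ∑ p ∈ s, Real.log p ≤ D := by
    rw [← Real.log_prod fun p h => by exact_mod_cast (hp p h).1.ne_zero]
    refine (Real.log_le_log (Finset.prod_pos fun p h => by exact_mod_cast (hp p h).1.pos) h2).trans ?_
    refine (Real.log_le_log (by exact_mod_cast hn) (by exact_mod_cast hnN)).trans hN
  have h4 : ∀ p ∈ s, 1 / (p : ℝ) ≤ Real.log p / D := by
    intro p h
    have a1 := (hp p h).2.1
    have hp0 : (0 : ℝ) < p := by nlinarith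
    have a2 : 1 / 2 ≤ Real.log p := by
      have : Real.log 2 ≤ Real.log p := Real.log_le_log (by norm_num) (by nlinarith)
      have := Real.log_two_gt_d9
      linarith
    rw [div_le_div_iff₀ hp0 (by linarith)]
    nlinarith
  calc ∑ p ∈ s, 1 / (p : ℝ) ≤ ∑ p ∈ s, Real.log p / D := Finset.sum_le_sum h4
    _ = (∑ p ∈ s, Real.log p) / D := by rw [Finset.sum_div]
    _ ≤ 1 := by rw [div_le_one (by linarith)]; exact h3
/-! ### the sum over blocks as a sum over primes -/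

def AP (D : ℝ) (j₀ : ℕ) : Finset ℕ := (Finset.Icc 1 ⌊XB D j₀⌋₊).filter Nat.Prime

theorem AP_step (D : ℝ) (hD : 0 ≤ D) (f : ℕ → ℂ) (j : ℕ) : ∑ p ∈ AP D j, f p = ∑ p ∈ PB D j, f p + ∑ p ∈ AP D (j + 1), f p := by
  classical
  rw [← Finset.sum_filter_add_sum_filter_not (AP D j) (fun p => XB D (j + 1) < (p : ℝ))]
  congr 1
  · refine Finset.sum_congr ?_ fun _ _ => rfl
    unfold AP PB
    rw [Finset.filter_filter]
  · refine Finset.sum_congr ?_ fun _ _ => rfl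
    unfold AP
    ext p
    simp only [Finset.mem_filter, Finset.mem_Icc, not_lt]
    constructor
    · rintro ⟨⟨⟨h1, _⟩, h3⟩, h4⟩
      exact ⟨⟨h1, (Nat.le_floor_iff (Pool.Agent.Q14.UM.XB_pos D (j + 1)).le).2 h4⟩, h3⟩
    · rintro ⟨⟨h1, h2⟩, h3⟩
      have h4 := (Nat.le_floor_iff (Pool.Agent.Q14.UM.XB_pos D (j + 1)).le).1 h2
      refine ⟨⟨⟨h1, ?_⟩, h3⟩, h4⟩
      exact (Nat.le_floor_iff (Pool.Agent.Q14.UM.XB_pos D j).le).2
        (h4.trans (Pool.Agent.Q14.UM.XB_anti D hD (Nat.le_succ j)))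

theorem AP_sum (D : ℝ) (hD : 0 ≤ D) (f : ℕ → ℂ) (j₀ : ℕ) : ∀ J, j₀ ≤ J →
    ∑ p ∈ AP D j₀, f p = ∑ l ∈ Finset.Ico j₀ J, ∑ p ∈ PB D l, f p + ∑ p ∈ AP D J, f p := by
  intro J hJ
  induction J, hJ using Nat.le_induction with
  | base => simp
  | succ J hJ ih =>
    rw [ih, Finset.sum_Ico_succ_top hJ, AP_step D hD f J]
    ring

theorem XB_JB (D : ℝ) (hD : 1 ≤ D) : XB D (JB D) < 2 := by
  unfold XB JB
  have h1 : Real.log (2 * D) ≤ (⌈Real.log (2 * D)⌉₊ : ℝ) := Nat.le_ceil _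
  have h2 : D * Real.exp (-(⌈Real.log (2 * D)⌉₊ : ℝ)) ≤ 1 / 2 := by
    have h3 : Real.exp (-(⌈Real.log (2 * D)⌉₊ : ℝ)) ≤ Real.exp (-(Real.log (2 * D))) := by
      apply Real.exp_le_exp.2
      linarith
    rw [Real.exp_neg (Real.log (2 * D)), Real.exp_log (by linarith)] at h3
    calc D * Real.exp (-(⌈Real.log (2 * D)⌉₊ : ℝ)) ≤ D * (2 * D)⁻¹ := by
          apply mul_le_mul_of_nonneg_left h3 (by linarith)
      _ = 1 / 2 := by field_simp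
  calc Real.exp (D * Real.exp (-(⌈Real.log (2 * D)⌉₊ : ℝ))) ≤ Real.exp (1 / 2) := Real.exp_le_exp.2 h2
    _ < 2 := by
      have h4 : Real.exp (1 / 2) * Real.exp (1 / 2) = Real.exp 1 := by rw [← Real.exp_add]; norm_num
      have h5 := Real.exp_one_lt_d9
      have h6 := Real.exp_pos (1 / 2 : ℝ)
      nlinarith

theorem AP_empty (D : ℝ) (hD : 1 ≤ D) (J : ℕ) (hJ : JB D ≤ J) : AP D J = ∅ := by
  unfold AP
  rw [Finset.filter_eq_empty_iff]
  intro p hp hpp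
  rw [Finset.mem_Icc] at hp
  have h1 : (p : ℝ) ≤ XB D J := (Nat.le_floor_iff (Pool.Agent.Q14.UM.XB_pos D J).le).1 hp.2
  have h2 := Pool.Agent.Q14.UM.XB_anti D (by linarith) hJ
  have h3 := XB_JB D hD
  have h4 : (2 : ℝ) ≤ p := by exact_mod_cast hpp.two_le
  linarith

def ww (a : ℕ → ℂ) (p : ℕ) : ℂ := a p * (p : ℂ) ^ (-(1 / 2) : ℂ)
def vv (a2 : ℕ → ℂ) (p : ℕ) : ℂ := a2 p / (2 * p)
/-- the term of the prime `p` -/
def tm (a a2 : ℕ → ℂ) (p : ℕ) (t : ℝ) : ℂ := ww a p * (p : ℂ) ^ (-(t * I)) + vv a2 p * ((p : ℂ) ^ (-(t * I))) ^ 2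

theorem tm_eq (a a2 : ℕ → ℂ) (p : ℕ) (hp : 1 ≤ p) (t : ℝ) :
    a p * (p : ℂ) ^ (-(1 / 2 + t * I)) + a2 p / 2 * (p : ℂ) ^ (-(1 + 2 * t * I)) = tm a a2 p t := by
  have hp0 : (p : ℂ) ≠ 0 := by exact_mod_cast (by omega : p ≠ 0)
  unfold tm ww vv
  have e1 : (p : ℂ) ^ (-(1 / 2 + t * I)) = (p : ℂ) ^ (-(1 / 2) : ℂ) * (p : ℂ) ^ (-(t * I)) := by
    rw [← Complex.cpow_add _ _ hp0]
    congr 1
    ring
  have e2 : (p : ℂ) ^ (-(1 + 2 * t * I)) = (p : ℂ)⁻¹ * ((p : ℂ) ^ (-(t * I))) ^ 2 := by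
    rw [← Complex.cpow_nat_mul, ← Complex.cpow_neg_one, ← Complex.cpow_add _ _ hp0]
    congr 1
    push_cast
    ring
  rw [e1, e2]
  field_simp

theorem ES_eq (D : ℝ) (hD : 1 ≤ D) (a a2 : ℕ → ℂ) (j₀ : ℕ) (t : ℝ) : ES D a a2 j₀ t = ∑ p ∈ AP D j₀, tm a a2 p t := by
  have h1 : ∀ l, zf D a a2 l t = ∑ p ∈ PB D l, tm a a2 p t := by
    intro l
    have h2 := Pool.Agent.Q14.UM.dp_qb D a a2 (by linarith) l t
    have h3 : zf D a a2 l t = ∑ p ∈ PB D l, (a p * (p : ℂ) ^ (-(1 / 2 + t * I)) + a2 p / 2 * (p : ℂ) ^ (-(1 + 2 * t * I))) := h2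
    rw [h3]
    refine Finset.sum_congr rfl fun p hp => ?_
    refine tm_eq a a2 p ?_ t
    unfold PB at hp
    rw [Finset.mem_filter, Finset.mem_Icc] at hp
    exact hp.1.1
  unfold ES
  simp_rw [h1]
  rcases le_total j₀ (JB D) with h | h
  · rw [AP_sum D (by linarith) _ j₀ (JB D) h, AP_empty D hD (JB D) le_rfl]
    simp
  · rw [Finset.Ico_eq_empty (by omega), AP_empty D hD j₀ h]
    simp

/-- the small primes -/
def SP (D : ℝ) (j₀ : ℕ) : Finset ℕ := (AP D j₀).filter (fun p => ¬ D ^ 2 < (p : ℝ))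

theorem ES_split (D : ℝ) (hD : 1 ≤ D) (a a2 : ℕ → ℂ) (j₀ : ℕ) (t : ℝ) :
    ES D a a2 j₀ t = ∑ p ∈ UP D j₀, tm a a2 p t + ∑ p ∈ SP D j₀, tm a a2 p t := by
  classical
  rw [ES_eq D hD, ← Finset.sum_filter_add_sum_filter_not (AP D j₀) (fun p => D ^ 2 < (p : ℝ))]
  congr 1
  refine Finset.sum_congr ?_ fun _ _ => rfl
  unfold AP UP
  rw [Finset.filter_filter]

theorem mem_SP {D : ℝ} {j₀ p : ℕ} (h : p ∈ SP D j₀) : p.Prime ∧ (p : ℝ) ≤ D ^ 2 := by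
  unfold SP AP at h
  rw [Finset.mem_filter, Finset.mem_filter, not_lt] at h
  exact ⟨h.1.2, h.2⟩

/-! ### the algebra `TR` -/

theorem TR_mul {L : List ℕ} (hL : ∀ p ∈ L, p.Prime) {x y : ℝ → ℂ} (hx : x ∈ TR L) (hy : y ∈ TR L) : x * y ∈ TR L := by
  unfold TR at hx hy
  induction hx using Submodule.span_induction with
  | mem x hx =>
    obtain ⟨m, n, hm, hn, hmn, rfl⟩ := hx
    induction hy using Submodule.span_induction with
    | mem y hy =>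
      obtain ⟨m', n', hm', hn', hmn', rfl⟩ := hy
      refine Submodule.subset_span ⟨m * m', n * n', Nat.mul_pos hm hm', Nat.mul_pos hn hn', ?_, ?_⟩
      · intro p hp
        refine ⟨fun h => ?_, fun h => ?_⟩
        · rcases (hL p hp).dvd_mul.1 h with h | h
          · exact (hmn p hp).1 h
          · exact (hmn' p hp).1 h
        · rcases (hL p hp).dvd_mul.1 h with h | h
          · exact (hmn p hp).2 h
          · exact (hmn' p hp).2 h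
      · funext t
        simp only [Pi.mul_apply]
        rw [Nat.cast_mul, Nat.cast_mul, Complex.natCast_mul_natCast_cpow, Complex.natCast_mul_natCast_cpow]
        ring
    | zero => rw [mul_zero]; exact Submodule.zero_mem _
    | add y z _ _ hy hz => rw [mul_add]; exact Submodule.add_mem _ hy hz
    | smul c y _ hy => rw [mul_smul_comm]; exact Submodule.smul_mem _ _ hy
  | zero => rw [zero_mul]; exact Submodule.zero_mem _
  | add x z _ _ hx hz => rw [add_mul]; exact Submodule.add_mem _ hx hz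
  | smul c x _ hx => rw [smul_mul_assoc]; exact Submodule.smul_mem _ _ hx

theorem TR_one (L : List ℕ) (hL : ∀ p ∈ L, p.Prime) : (1 : ℝ → ℂ) ∈ TR L := by
  refine Submodule.subset_span ⟨1, 1, le_rfl, le_rfl, fun p hp => ?_, ?_⟩
  · have := (hL p hp).one_lt
    exact ⟨fun h => by have := Nat.le_of_dvd one_pos h; omega, fun h => by have := Nat.le_of_dvd one_pos h; omega⟩
  · funext t
    simp

theorem TR_pow {L : List ℕ} (hL : ∀ p ∈ L, p.Prime) {x : ℝ → ℂ} (hx : x ∈ TR L) (r : ℕ) : x ^ r ∈ TR L := by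
  induction r with
  | zero => rw [pow_zero]; exact TR_one L hL
  | succ r ih => rw [pow_succ]; exact TR_mul hL ih hx

theorem TR_sum {L : List ℕ} (s : Finset ℕ) (F : ℕ → ℝ → ℂ) (h : ∀ p ∈ s, F p ∈ TR L) : (fun t => ∑ p ∈ s, F p t) ∈ TR L := by
  have e : (fun t => ∑ p ∈ s, F p t) = ∑ p ∈ s, F p := by
    funext t
    rw [Finset.sum_apply]
  rw [e]
  exact Submodule.sum_mem _ h

/-- `z_p^k` and its conjugate -/
theorem TR_z {L : List ℕ} (hL : ∀ p ∈ L, p.Prime) {q : ℕ} (hq : q.Prime) (hqL : q ∉ L) :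
    (fun t : ℝ => (q : ℂ) ^ (-(t * I))) ∈ TR L ∧ (fun t : ℝ => (starRingEnd ℂ) ((q : ℂ) ^ (-(t * I)))) ∈ TR L := by
  have h0 : ∀ p ∈ L, ¬ p ∣ q := fun p hp h => by
    have := (Nat.prime_dvd_prime_iff_eq (hL p hp) hq).1 h
    exact hqL (this ▸ hp)
  have h1 : ∀ p ∈ L, ¬ p ∣ 1 := fun p hp h => by
    have := (hL p hp).one_lt
    have := Nat.le_of_dvd one_pos h
    omega
  constructor
  · refine Submodule.subset_span ⟨q, 1, hq.one_lt.le, le_rfl, fun p hp => ⟨h0 p hp, h1 p hp⟩, ?_⟩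
    funext t
    simp
  · refine Submodule.subset_span ⟨1, q, le_rfl, hq.one_lt.le, fun p hp => ⟨h1 p hp, h0 p hp⟩, ?_⟩
    funext t
    rw [cj_cpow]
    simp

theorem TR_re {L : List ℕ} (hL : ∀ p ∈ L, p.Prime) (s : Finset ℕ) (a a2 : ℕ → ℂ) (hs : ∀ q ∈ s, q.Prime ∧ q ∉ L) :
    (fun t : ℝ => I * (((∑ q ∈ s, tm a a2 q t).re : ℝ) : ℂ)) ∈ TR L := by
  have hre : ∀ x : ℂ, ((x.re : ℝ) : ℂ) = (x + (starRingEnd ℂ) x) / 2 := fun x => by
    rw [Complex.add_conj]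
    push_cast
    ring
  have e : (fun t : ℝ => I * (((∑ q ∈ s, tm a a2 q t).re : ℝ) : ℂ)) =
      (I / 2) • (fun t : ℝ => ∑ q ∈ s, (tm a a2 q t + (starRingEnd ℂ) (tm a a2 q t))) := by
    funext t
    rw [hre, Pi.smul_apply, smul_eq_mul, Finset.sum_add_distrib, map_sum]
    ring
  rw [e]
  refine Submodule.smul_mem _ _ (TR_sum s (fun q t => tm a a2 q t + (starRingEnd ℂ) (tm a a2 q t)) fun q hq => ?_)
  obtain ⟨z1, z2⟩ := TR_z hL (hs q hq).1 (hs q hq).2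
  have e2 : (fun t : ℝ => tm a a2 q t + (starRingEnd ℂ) (tm a a2 q t)) =
      ww a q • (fun t : ℝ => (q : ℂ) ^ (-(t * I))) + vv a2 q • (fun t : ℝ => (q : ℂ) ^ (-(t * I))) ^ 2 +
      ((starRingEnd ℂ) (ww a q) • (fun t : ℝ => (starRingEnd ℂ) ((q : ℂ) ^ (-(t * I)))) + (starRingEnd ℂ) (vv a2 q) • (fun t : ℝ => (starRingEnd ℂ) ((q : ℂ) ^ (-(t * I)))) ^ 2) := by
    funext t
    simp only [Pi.add_apply, Pi.smul_apply, Pi.pow_apply, smul_eq_mul]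
    unfold tm
    rw [map_add, map_mul, map_mul, map_pow]
  rw [e2]
  exact Submodule.add_mem _ (Submodule.add_mem _ (Submodule.smul_mem _ _ z1) (Submodule.smul_mem _ _ (TR_pow hL z1 2)))
    (Submodule.add_mem _ (Submodule.smul_mem _ _ z2) (Submodule.smul_mem _ _ (TR_pow hL z2 2)))

/-- uniform approximation of the exponential of the small primes -/
theorem TR_exp {L : List ℕ} (hL : ∀ p ∈ L, p.Prime) (X : ℝ → ℝ) (hX : (fun t : ℝ => I * ((X t : ℝ) : ℂ)) ∈ TR L) (B : ℝ) (_hB : 0 ≤ B)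
    (hXB : ∀ t, |X t| ≤ B) (ε : ℝ) (hε : 0 < ε) : ∃ Φ ∈ TR L, ∀ t, ‖cexp (I * ((X t : ℝ) : ℂ)) - Φ t‖ ≤ ε := by
  have h1 : Tendsto (fun n : ℕ => B ^ n / (n.factorial : ℝ) * 2) atTop (𝓝 0) := by
    have := (FloorSemiring.tendsto_pow_div_factorial_atTop B).mul_const 2
    simpa using this
  have h2 : ∀ᶠ n : ℕ in atTop, B ^ n / (n.factorial : ℝ) * 2 < ε := h1.eventually (gt_mem_nhds hε)
  have h3 : ∀ᶠ n : ℕ in atTop, 2 * B ≤ (n : ℝ) := tendsto_natCast_atTop_atTop.eventually (eventually_ge_atTop _)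
  obtain ⟨n, hn1, hn2⟩ := (h2.and h3).exists
  refine ⟨fun t => ∑ m ∈ Finset.range n, (I * ((X t : ℝ) : ℂ)) ^ m / (m.factorial : ℂ), ?_, fun t => ?_⟩
  · refine TR_sum (Finset.range n) (fun m t => (I * ((X t : ℝ) : ℂ)) ^ m / (m.factorial : ℂ)) fun m _ => ?_
    have e : (fun t : ℝ => (I * ((X t : ℝ) : ℂ)) ^ m / (m.factorial : ℂ)) =
        ((m.factorial : ℂ)⁻¹) • (fun t : ℝ => I * ((X t : ℝ) : ℂ)) ^ m := by
      funext t
      simp only [Pi.smul_apply, Pi.pow_apply, smul_eq_mul]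
      ring
    rw [e]
    exact Submodule.smul_mem _ _ (TR_pow hL hX m)
  · have hn : ‖I * ((X t : ℝ) : ℂ)‖ = |X t| := by simp
    have h4 : ‖I * ((X t : ℝ) : ℂ)‖ / (n.succ : ℝ) ≤ 1 / 2 := by
      rw [hn, div_le_div_iff₀ (by positivity) (by norm_num)]
      push_cast
      linarith [hXB t]
    refine (Complex.exp_bound' h4).trans ?_
    rw [hn]
    refine le_trans ?_ hn1.le
    have : |X t| ^ n ≤ B ^ n := pow_le_pow_left₀ (abs_nonneg _) (hXB t) n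
    gcongr
/-! ### norms -/

theorem ww_norm (a : ℕ → ℂ) (p : ℕ) (hp : 1 ≤ p) : ‖ww a p‖ = ‖a p‖ * (p : ℝ) ^ (-(1 / 2) : ℝ) := by
  unfold ww
  rw [norm_mul, Complex.norm_natCast_cpow_of_pos (by omega)]
  norm_num

theorem ww_sq (a : ℕ → ℂ) (p : ℕ) (hp : 1 ≤ p) : ‖ww a p‖ ^ 2 = ‖a p‖ ^ 2 / p := by
  rw [ww_norm a p hp, mul_pow, ← Real.rpow_natCast ((p : ℝ) ^ (-(1 / 2) : ℝ)) 2, ← Real.rpow_mul (Nat.cast_nonneg _)]
  have : (-(1 / 2) : ℝ) * ((2 : ℕ) : ℝ) = -1 := by norm_num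
  rw [this, Real.rpow_neg_one, div_eq_mul_inv]

theorem vv_norm (a2 : ℕ → ℂ) (p : ℕ) : ‖vv a2 p‖ = ‖a2 p‖ / (2 * p) := by
  unfold vv
  rw [norm_div, norm_mul, Complex.norm_natCast]
  norm_num

theorem fac_bd (D : ℝ) (hD : 2 ≤ D) (a : ℕ → ℂ) (ha : ∀ n, ‖a n‖ ≤ 1) (j₀ N n : ℕ) (hn : 1 ≤ n) (hnN : n ≤ N) (hN : Real.log N ≤ D) :
    ∏ p ∈ UP D j₀, (if p ∣ n then (1 : ℝ) else 1 - ‖ww a p‖ ^ 2 / 4) ≤
      Real.exp (1 / 4) * Real.exp (-(1 / 4) * ∑ p ∈ UP D j₀, ‖a p‖ ^ 2 / p) := by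
  have h1 : ∀ p ∈ UP D j₀, ‖ww a p‖ ^ 2 = ‖a p‖ ^ 2 / p := fun p hp => ww_sq a p (mem_UP hp).1.one_lt.le
  have h2 : ∀ p : ℕ, ‖a p‖ ^ 2 / p ≤ 1 / (p : ℝ) := fun p => by
    have : ‖a p‖ ^ 2 ≤ 1 := pow_le_one₀ (norm_nonneg _) (ha p)
    gcongr
  have h3 : ∀ p ∈ UP D j₀, 1 / (p : ℝ) ≤ 1 := fun p hp => by
    have : (1 : ℝ) ≤ p := by exact_mod_cast (mem_UP hp).1.one_lt.le
    rw [div_le_one (by linarith)]
    exact this
  calc ∏ p ∈ UP D j₀, (if p ∣ n then (1 : ℝ) else 1 - ‖ww a p‖ ^ 2 / 4)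
      ≤ ∏ p ∈ UP D j₀, Real.exp (-(1 / 4) * (‖a p‖ ^ 2 / p) + 1 / 4 * (if p ∣ n then 1 / (p : ℝ) else 0)) := by
        refine Finset.prod_le_prod (fun p hp => ?_) fun p hp => ?_
        · split_ifs
          · norm_num
          · rw [h1 p hp]
            have := h2 p
            have := h3 p hp
            linarith
        · split_ifs
          · refine Real.one_le_exp ?_
            have := h2 p
            linarith
          · rw [h1 p hp]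
            have := Real.add_one_le_exp (-(1 / 4) * (‖a p‖ ^ 2 / p) + 1 / 4 * 0)
            linarith
    _ = Real.exp (-(1 / 4) * ∑ p ∈ UP D j₀, ‖a p‖ ^ 2 / p +
          1 / 4 * ∑ p ∈ (UP D j₀).filter (fun p => p ∣ n), 1 / (p : ℝ)) := by
        rw [← Real.exp_sum, Finset.sum_add_distrib, ← Finset.mul_sum, ← Finset.mul_sum, Finset.sum_filter]
    _ ≤ Real.exp (-(1 / 4) * ∑ p ∈ UP D j₀, ‖a p‖ ^ 2 / p + 1 / 4 * 1) := by
        refine Real.exp_le_exp.2 ?_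
        have := dvd_sum D hD j₀ N n hn hnN hN
        linarith
    _ = _ := by rw [mul_one, Real.exp_add]; ring

theorem alg_bd (hALG : S_ALG) (D : ℝ) (hD : 2 ≤ D) (a a2 : ℕ → ℂ) (ha : ∀ n, ‖a n‖ ≤ 1) (ha2 : ∀ n, ‖a2 n‖ ≤ 1) (j₀ N : ℕ)
    (hN : Real.log N ≤ D) (u : ℕ → ℂ) (hu : FS u) (huN : ∀ n, u n ≠ 0 → 1 ≤ n ∧ n ≤ N) :
    nn (TL (ww a) (vv a2) (UP D j₀).toList u) ≤
      Real.exp 17 * Real.exp (-(1 / 4) * ∑ p ∈ UP D j₀, ‖a p‖ ^ 2 / p) * nn u := by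
  have hmem : ∀ p ∈ (UP D j₀).toList, p.Prime ∧ ‖ww a p‖ ≤ (p : ℝ) ^ (-(1 / 2) : ℝ) ∧ ‖vv a2 p‖ ≤ 1 / (2 * p) := by
    intro p hp
    have hp' := (mem_UP (Finset.mem_toList.1 hp)).1
    refine ⟨hp', ?_, ?_⟩
    · rw [ww_norm a p hp'.one_lt.le]
      exact mul_le_of_le_one_left (Real.rpow_nonneg (Nat.cast_nonneg _) _) (ha p)
    · rw [vv_norm]
      have := ha2 p
      gcongr
  obtain ⟨-, h⟩ := hALG (UP D j₀).toList (ww a) (vv a2) (Finset.nodup_toList _) hmem u hu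
  rw [Finset.toList_toFinset] at h
  refine h.trans ?_
  have h1 : ∏ p ∈ UP D j₀, (1 + 8 * (p : ℝ) ^ (-(3 / 2) : ℝ)) ≤ Real.exp 16 := by
    have h2 : ∏ p ∈ UP D j₀, (1 + 8 * (p : ℝ) ^ (-(3 / 2) : ℝ)) ≤ ∏ p ∈ UP D j₀, Real.exp (8 * (p : ℝ) ^ (-(3 / 2) : ℝ)) :=
      Finset.prod_le_prod (fun p _ => by positivity) fun p _ => by
        linarith [Real.add_one_le_exp (8 * (p : ℝ) ^ (-(3 / 2) : ℝ))]
    refine h2.trans ?_
    rw [← Real.exp_sum, ← Finset.mul_sum]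
    refine Real.exp_le_exp.2 ?_
    have h3 := UP_sum D hD j₀
    have h4 : 4 / D ≤ 2 := by rw [div_le_iff₀ (by linarith)]; linarith
    linarith
  have hfin : ∀ c : ℕ → ℝ, Summable fun n => c n * ‖u n‖ ^ 2 := fun c => by
    refine summable_of_hasFiniteSupport (hu.2.subset ?_)
    intro n hn
    rw [Function.mem_support] at hn ⊢
    intro h0
    exact hn (by rw [h0]; simp)
  have h2 : ∑' n, (∏ p ∈ UP D j₀, if p ∣ n then (1 : ℝ) else 1 - ‖ww a p‖ ^ 2 / 4) * ‖u n‖ ^ 2 ≤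
      Real.exp (1 / 4) * Real.exp (-(1 / 4) * ∑ p ∈ UP D j₀, ‖a p‖ ^ 2 / p) * nn u := by
    unfold nn
    rw [← tsum_mul_left]
    refine Summable.tsum_le_tsum (fun n => ?_) (hfin _) (hfin _)
    rcases eq_or_ne (u n) 0 with h0 | h0
    · rw [h0]; simp
    · have hn := huN n h0
      exact mul_le_mul_of_nonneg_right (fac_bd D hD a ha j₀ N n hn.1 hn.2 hN) (by positivity)
  have h3 : 0 ≤ nn u := tsum_nonneg fun n => by positivity
  have h4 : 0 ≤ Real.exp (1 / 4) * Real.exp (-(1 / 4) * ∑ p ∈ UP D j₀, ‖a p‖ ^ 2 / p) * nn u := by positivity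
  calc _ ≤ Real.exp 16 * (Real.exp (1 / 4) * Real.exp (-(1 / 4) * ∑ p ∈ UP D j₀, ‖a p‖ ^ 2 / p) * nn u) := by
        refine (mul_le_mul_of_nonneg_left h2 (Finset.prod_nonneg fun p _ => by positivity)).trans ?_
        exact mul_le_mul_of_nonneg_right h1 h4
    _ = (Real.exp 16 * Real.exp (1 / 4)) * (Real.exp (-(1 / 4) * ∑ p ∈ UP D j₀, ‖a p‖ ^ 2 / p) * nn u) := by ring
    _ ≤ Real.exp 17 * (Real.exp (-(1 / 4) * ∑ p ∈ UP D j₀, ‖a p‖ ^ 2 / p) * nn u) := by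
        refine mul_le_mul_of_nonneg_right ?_ (by positivity)
        rw [← Real.exp_add]
        exact Real.exp_le_exp.2 (by norm_num)
    _ = _ := by ring

/-! ### the Dirichlet polynomial -/

theorem dp_Fd (N : ℕ) (b : ℕ → ℂ) (hb : ∀ n, b n ≠ 0 → 1 ≤ n ∧ n ≤ N) (t : ℝ) : Fd (ww b) t = dp N b t := by
  unfold Fd dp ww
  rw [tsum_eq_sum (s := Finset.Icc 1 N)]
  · refine Finset.sum_congr rfl fun n hn => ?_
    rw [Finset.mem_Icc] at hn
    have hn0 : (n : ℂ) ≠ 0 := by exact_mod_cast (by omega : n ≠ 0)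
    rw [mul_assoc, ← Complex.cpow_add _ _ hn0]
    congr 2
    ring
  · intro n hn
    have h0 : b n = 0 := by
      by_contra h
      exact hn (Finset.mem_Icc.2 (hb n h))
    rw [h0]; simp

theorem nn_ww (N : ℕ) (b : ℕ → ℂ) (hb : ∀ n, b n ≠ 0 → 1 ≤ n ∧ n ≤ N) : nn (ww b) = N2 N b := by
  unfold nn N2
  rw [tsum_eq_sum (s := Finset.Icc 1 N)]
  · exact Finset.sum_congr rfl fun n hn => ww_sq b n (Finset.mem_Icc.1 hn).1
  · intro n hn
    have h0 : b n = 0 := by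
      by_contra h
      exact hn (Finset.mem_Icc.2 (hb n h))
    simp [ww, h0]

theorem FS_ww (N : ℕ) (b : ℕ → ℂ) (hb : ∀ n, b n ≠ 0 → 1 ≤ n ∧ n ≤ N) :
    FS (ww b) ∧ ∀ n, ww b n ≠ 0 → 1 ≤ n ∧ n ≤ N := by
  have h : ∀ n, ww b n ≠ 0 → 1 ≤ n ∧ n ≤ N := fun n hn => hb n fun h0 => hn (by simp [ww, h0])
  refine ⟨⟨?_, ?_⟩, h⟩
  · by_contra h0
    have := (h 0 h0).1
    omega
  · refine (Finset.finite_toSet (Finset.Icc 1 N)).subset fun n hn => ?_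
    exact Finset.mem_coe.2 (Finset.mem_Icc.2 (h n hn))

theorem real_lim (hLIM : S_LIM) {f : ℕ → ℂ} (hf : FS f) :
    Tendsto (fun V : ℝ => V⁻¹ * ∫ t in V..(2 * V), ‖Fd f t‖ ^ 2) atTop (𝓝 (nn f)) := by
  have h := hLIM f f hf hf
  have h2 := (Complex.continuous_re.tendsto _).comp h
  have hm : ∀ z : ℂ, z * (starRingEnd ℂ) z = ((‖z‖ ^ 2 : ℝ) : ℂ) := fun z => by rw [Complex.mul_conj, Complex.normSq_eq_norm_sq]
  have e1 : (∑' n, f n * (starRingEnd ℂ) (f n)).re = nn f := by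
    unfold nn
    simp_rw [hm]
    rw [← Complex.ofReal_tsum, Complex.ofReal_re]
  rw [e1] at h2
  refine h2.congr fun V => ?_
  simp only [Function.comp]
  simp_rw [hm]
  rw [intervalIntegral.integral_ofReal, ← Complex.ofReal_mul, Complex.ofReal_re]
/-! ### the pointwise approximation -/

theorem tm_cont (a a2 : ℕ → ℂ) (p : ℕ) (hp : 1 ≤ p) : Continuous (tm a a2 p) := by
  have hc : Continuous fun t : ℝ => (p : ℂ) ^ (-(t * I)) :=
    Continuous.const_cpow (by fun_prop) (Or.inl (by exact_mod_cast (by omega : p ≠ 0)))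
  unfold tm
  fun_prop

theorem Oe_cont (D : ℝ) (hD : 1 ≤ D) (a a2 : ℕ → ℂ) (j₀ : ℕ) : Continuous (Oe D a a2 j₀) := by
  have h1 : Continuous fun t => ES D a a2 j₀ t := by
    have h2 : (fun t => ES D a a2 j₀ t) = fun t => ∑ p ∈ AP D j₀, tm a a2 p t := funext fun t => ES_eq D hD a a2 j₀ t
    rw [h2]
    refine continuous_finsetSum _ fun p hp => tm_cont a a2 p ?_
    unfold AP at hp
    exact (Finset.mem_Icc.1 (Finset.mem_filter.1 hp).1).1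
  unfold Oe
  fun_prop

theorem norm_expI (x : ℝ) : ‖cexp (I * (x : ℂ))‖ = 1 := by
  rw [mul_comm]
  exact Complex.norm_exp_ofReal_mul_I x

theorem point (D : ℝ) (hD : 2 ≤ D) (a a2 : ℕ → ℂ) (ha : ∀ n, ‖a n‖ ≤ 1) (ha2 : ∀ n, ‖a2 n‖ ≤ 1) (j₀ : ℕ) :
    ∃ Φ ∈ TR (UP D j₀).toList, (∀ t, ‖Φ t‖ ≤ 2) ∧
      ∀ t, ‖Oe D a a2 j₀ t - Φ t * ((UP D j₀).toList.map fun p => qp p (ww a p) (vv a2 p) t).prod‖ ≤
        (1 + 160 * Real.exp 40) / D := by
  have hL : ∀ p ∈ (UP D j₀).toList, p.Prime := fun p hp => (mem_UP (Finset.mem_toList.1 hp)).1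
  have hS : ∀ q ∈ SP D j₀, q.Prime ∧ q ∉ (UP D j₀).toList := fun q hq =>
    ⟨(mem_SP hq).1, fun h => by
      have h1 := (mem_UP (Finset.mem_toList.1 h)).2
      have h2 := (mem_SP hq).2
      linarith⟩
  have hX := TR_re hL (SP D j₀) a a2 hS
  have hz : ∀ (q : ℕ), 1 ≤ q → ∀ t : ℝ, ‖(q : ℂ) ^ (-(t * I))‖ = 1 := fun q hq t => by
    rw [Complex.norm_natCast_cpow_of_pos (by omega)]
    simp
  have hB : ∀ t, |(∑ q ∈ SP D j₀, tm a a2 q t).re| ≤ ∑ q ∈ SP D j₀, (‖ww a q‖ + ‖vv a2 q‖) := fun t => by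
    refine (Complex.abs_re_le_norm _).trans ((norm_sum_le _ _).trans (Finset.sum_le_sum fun q hq => ?_))
    unfold tm
    refine (norm_add_le _ _).trans ?_
    rw [norm_mul, norm_mul, norm_pow, hz q (mem_SP hq).1.one_lt.le t]
    simp
  obtain ⟨Φ, hΦ, hΦ2⟩ := TR_exp hL (fun t => (∑ q ∈ SP D j₀, tm a a2 q t).re) hX _
    (Finset.sum_nonneg fun q _ => by positivity) hB (1 / D) (by positivity)
  have hΦ3 : ∀ t, ‖Φ t‖ ≤ 2 := fun t => by
    have h1 := hΦ2 t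
    have h2 := norm_expI ((∑ q ∈ SP D j₀, tm a a2 q t).re)
    have h3 := norm_sub_le (cexp (I * (((∑ q ∈ SP D j₀, tm a a2 q t).re : ℝ) : ℂ)))
      (cexp (I * (((∑ q ∈ SP D j₀, tm a a2 q t).re : ℝ) : ℂ)) - Φ t)
    rw [sub_sub_cancel] at h3
    have h4 : 1 / D ≤ 1 := by rw [div_le_one (by linarith)]; linarith
    linarith
  refine ⟨Φ, hΦ, hΦ3, fun t => ?_⟩
  have h7 := hΦ2 t
  set g : ℂ := cexp (I * (((∑ q ∈ SP D j₀, tm a a2 q t).re : ℝ) : ℂ)) with hg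
  set e : ℂ := ∏ p ∈ UP D j₀, cexp (I * (((tm a a2 p t).re : ℝ) : ℂ)) with he
  set Q : ℂ := ((UP D j₀).toList.map fun p => qp p (ww a p) (vv a2 p) t).prod with hQ
  have hQ2 : Q = ∏ p ∈ UP D j₀, qp p (ww a p) (vv a2 p) t := by
    rw [hQ, Finset.prod_map_toList]
  have hOe : Oe D a a2 j₀ t = g * e := by
    unfold Oe
    rw [ES_split D (by linarith), Complex.add_re, hg, he, ← Complex.exp_sum, ← Complex.exp_add]
    congr 1
    rw [Complex.re_sum (UP D j₀), ← Finset.mul_sum, Complex.ofReal_add, Complex.ofReal_sum]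
    ring
  have he1 : ‖e‖ = 1 := by
    rw [he, norm_prod]
    exact Finset.prod_eq_one fun p _ => norm_expI _
  have hd : ‖e - Q‖ ≤ Real.exp (∑ p ∈ UP D j₀, 20 * (p : ℝ) ^ (-(3 / 2) : ℝ)) - 1 := by
    rw [hQ2]
    refine prod_sub _ _ _ _ (fun p _ => norm_expI _) fun p hp => ?_
    have hp1 := (mem_UP hp).1.one_lt.le
    have hpR : (1 : ℝ) ≤ p := by exact_mod_cast hp1
    have hr0 : 0 ≤ (p : ℝ) ^ (-(1 / 2) : ℝ) := by positivity
    have hr1 : (p : ℝ) ^ (-(1 / 2) : ℝ) ≤ 1 := Real.rpow_le_one_of_one_le_of_nonpos hpR (by norm_num)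
    have hr2 : ((p : ℝ) ^ (-(1 / 2) : ℝ)) ^ 2 = 1 / p := by
      rw [← Real.rpow_natCast, ← Real.rpow_mul (Nat.cast_nonneg _)]
      have : (-(1 / 2) : ℝ) * ((2 : ℕ) : ℝ) = -1 := by norm_num
      rw [this, Real.rpow_neg_one, one_div]
    have hr3 : ((p : ℝ) ^ (-(1 / 2) : ℝ)) ^ 3 = (p : ℝ) ^ (-(3 / 2) : ℝ) := by
      rw [← Real.rpow_natCast, ← Real.rpow_mul (Nat.cast_nonneg _)]
      norm_num
    have hw : ‖ww a p‖ ≤ (p : ℝ) ^ (-(1 / 2) : ℝ) := by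
      rw [ww_norm a p hp1]
      exact mul_le_of_le_one_left hr0 (ha p)
    have hv : ‖vv a2 p‖ ≤ ((p : ℝ) ^ (-(1 / 2) : ℝ)) ^ 2 / 2 := by
      rw [vv_norm, hr2, div_div, mul_comm (p : ℝ) 2]
      have := ha2 p
      gcongr
    have h := exp_qp hr0 hr1 hw hv (hz p hp1 t)
    rw [hr3] at h
    exact h
  have hsum : ∑ p ∈ UP D j₀, 20 * (p : ℝ) ^ (-(3 / 2) : ℝ) ≤ 80 / D := by
    rw [← Finset.mul_sum]
    have h := UP_sum D hD j₀
    calc 20 * ∑ p ∈ UP D j₀, (p : ℝ) ^ (-(3 / 2) : ℝ) ≤ 20 * (4 / D) := by linarith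
      _ = 80 / D := by ring
  have h80 : 80 / D ≤ 40 := by rw [div_le_iff₀ (by linarith)]; linarith
  have hd2 : ‖e - Q‖ ≤ 80 / D * Real.exp 40 := by
    have h1 : Real.exp (80 / D) - 1 ≤ 80 / D * Real.exp (80 / D) := by
      have h2 := Real.add_one_le_exp (-(80 / D))
      have h3 : Real.exp (-(80 / D)) * Real.exp (80 / D) = 1 := by rw [← Real.exp_add]; simp
      nlinarith [Real.exp_pos (80 / D)]
    have h4 : Real.exp (80 / D) ≤ Real.exp 40 := Real.exp_le_exp.2 h80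
    have h5 := Real.exp_le_exp.2 hsum
    have h6 : 0 ≤ 80 / D := by positivity
    have h8 := mul_le_mul_of_nonneg_left h4 h6
    linarith
  rw [hOe]
  have e1 : g * e - Φ t * Q = (g - Φ t) * e + Φ t * (e - Q) := by ring
  rw [e1]
  refine (norm_add_le _ _).trans ?_
  rw [norm_mul, norm_mul, he1, mul_one]
  have h8 : ‖Φ t‖ * ‖e - Q‖ ≤ 2 * (80 / D * Real.exp 40) := mul_le_mul (hΦ3 t) hd2 (norm_nonneg _) (by norm_num)
  have e2 : (1 + 160 * Real.exp 40) / D = 1 / D + 2 * (80 / D * Real.exp 40) := by ring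
  rw [e2]
  linarith

/-! ### assembly -/

theorem amgm (E x y φ : ℝ) (hx : 0 ≤ x) (hy : 0 ≤ y) (hφ : φ ≤ 2) :
    φ * x * y ≤ Real.exp (E / 8) * x ^ 2 + Real.exp (-(E / 8)) * y ^ 2 := by
  have h1 : Real.exp (E / 16) * Real.exp (-(E / 16)) = 1 := by rw [← Real.exp_add]; simp
  have h2 : Real.exp (E / 8) = Real.exp (E / 16) ^ 2 := by rw [← Real.exp_nat_mul]; congr 1; push_cast; ring
  have h3 : Real.exp (-(E / 8)) = Real.exp (-(E / 16)) ^ 2 := by rw [← Real.exp_nat_mul]; congr 1; push_cast; ring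
  rw [h2, h3]
  have h4 := sq_nonneg (Real.exp (E / 16) * x - Real.exp (-(E / 16)) * y)
  have h5 : (Real.exp (E / 16) * x - Real.exp (-(E / 16)) * y) ^ 2 = Real.exp (E / 16) ^ 2 * x ^ 2 +
      Real.exp (-(E / 16)) ^ 2 * y ^ 2 - 2 * (Real.exp (E / 16) * Real.exp (-(E / 16))) * (x * y) := by ring
  rw [h1] at h5
  have h6 : 0 ≤ x * y := mul_nonneg hx hy
  nlinarith [mul_le_mul_of_nonneg_right hφ h6]

theorem t_CHV : J_CHV := by
  intro hLIM hALG hMEA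
  set C₀ : ℝ := Real.exp 17 + 1 + (1 + 160 * Real.exp 40) with hC₀
  have k1 := Real.exp_pos 17
  have k2 := Real.exp_pos 40
  refine ⟨2 * C₀, by linarith, ?_⟩
  intro D hD a a2 ha ha2 j₀ N b hN1 hN hb
  by_cases hz : ∀ n, b n = 0
  · refine Filter.Eventually.of_forall fun V => ?_
    have h1 : ∀ t, dp N b t = 0 := fun t => by unfold dp; simp [hz]
    have h2 : N2 N b = 0 := by unfold N2; simp [hz]
    simp [h1, h2]
  push Not at hz
  obtain ⟨n₀, hn₀⟩ := hz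
  have hpos : 0 < N2 N b := by
    unfold N2
    have hn := hb n₀ hn₀
    refine Finset.sum_pos' (fun n _ => by positivity) ⟨n₀, Finset.mem_Icc.2 hn, ?_⟩
    have h1 : (0 : ℝ) < n₀ := by exact_mod_cast hn.1
    have h2 : 0 < ‖b n₀‖ := norm_pos_iff.2 hn₀
    positivity
  obtain ⟨hF, huN⟩ := FS_ww N b hb
  have hnn : nn (ww b) = N2 N b := nn_ww N b hb
  have hdF := dp_Fd N b hb
  generalize ww b = u at hF huN hnn hdF
  have hL : ∀ p ∈ (UP D j₀).toList, p.Prime := fun p hp => (mem_UP (Finset.mem_toList.1 hp)).1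
  obtain ⟨Φ, hΦ, hΦ2, hpt⟩ := point D hD a a2 ha ha2 j₀
  have hfF : FS (TL (ww a) (vv a2) (UP D j₀).toList u) := FS_TL _ _ (UP D j₀).toList hL u hF
  have hM := hMEA (UP D j₀).toList (ww a) (vv a2) (Finset.nodup_toList _) hL Φ hΦ u u hF hF
  have hnf : nn (TL (ww a) (vv a2) (UP D j₀).toList u) ≤
      Real.exp 17 * Real.exp (-(1 / 4) * ∑ p ∈ UP D j₀, ‖a p‖ ^ 2 / p) * nn u :=
    alg_bd hALG D hD a a2 ha ha2 j₀ N hN u hF huN
  have cQ := prod_cont (ww a) (vv a2) (UP D j₀).toList hL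
  have cΦ := TR_cont hΦ
  set E : ℝ := ∑ p ∈ UP D j₀, ‖a p‖ ^ 2 / p with hE
  generalize TL (ww a) (vv a2) (UP D j₀).toList u = f at hfF hM hnf
  have l1 := real_lim hLIM hfF
  have l2 := real_lim hLIM hF
  obtain ⟨c, hc⟩ : ∃ c : ℝ, c = (1 + 160 * Real.exp 40) / D := ⟨_, rfl⟩
  rw [← hc] at hpt
  have l3 := ((hM.norm.add (l1.const_mul (Real.exp (E / 8)))).add (l2.const_mul (Real.exp (-(E / 8))))).add (l2.const_mul c)
  have hlt : ‖(0 : ℂ)‖ + Real.exp (E / 8) * nn f + Real.exp (-(E / 8)) * nn u + c * nn u <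
      2 * C₀ * (Real.exp (-(1 / 8) * E) + 1 / D) * N2 N b := by
    rw [norm_zero, ← hnn]
    rw [← hnn] at hpos
    have e1 : Real.exp (E / 8) * nn f ≤ Real.exp 17 * Real.exp (-(1 / 8) * E) * nn u := by
      have e0 : Real.exp (E / 8) * Real.exp (-(1 / 4) * E) = Real.exp (-(1 / 8) * E) := by
        rw [← Real.exp_add]; congr 1; ring
      calc Real.exp (E / 8) * nn f ≤ Real.exp (E / 8) * (Real.exp 17 * Real.exp (-(1 / 4) * E) * nn u) :=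
            mul_le_mul_of_nonneg_left hnf (Real.exp_pos _).le
        _ = Real.exp 17 * (Real.exp (E / 8) * Real.exp (-(1 / 4) * E)) * nn u := by ring
        _ = _ := by rw [e0]
    have e2 : Real.exp (-(E / 8)) = Real.exp (-(1 / 8) * E) := by congr 1; ring
    rw [e2]
    generalize hx' : Real.exp (-(1 / 8) * E) = x at e1 ⊢
    have hx : 0 < x := hx' ▸ Real.exp_pos _
    have e3 : c = (1 + 160 * Real.exp 40) * (1 / D) := by rw [hc]; ring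
    have hD' : 0 < 1 / D := by positivity
    rw [e3]
    generalize 1 / D = y at hD' ⊢
    have e4 : Real.exp 17 * x + x + (1 + 160 * Real.exp 40) * y ≤ C₀ * (x + y) := by
      rw [hC₀]
      nlinarith [mul_pos k1 hD', mul_pos k2 hx]
    have e5 : 0 < C₀ * (x + y) * nn u := by
      have : 0 < C₀ := by linarith
      positivity
    have e6 := mul_le_mul_of_nonneg_right e4 hpos.le
    nlinarith
  have hev := l3.eventually (gt_mem_nhds hlt)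
  filter_upwards [hev, eventually_gt_atTop 0] with V hV hV0
  have hV2 : V ≤ 2 * V := by linarith
  have cO := Oe_cont D (by linarith) a a2 j₀
  have cu := Fd_cont hF
  have cf := Fd_cont hfF
  have cju : Continuous fun t => (starRingEnd ℂ) (Fd u t) := Complex.continuous_conj.comp cu
  have e0 : ∀ t, ((‖dp N b t‖ ^ 2 : ℝ) : ℂ) = Fd u t * (starRingEnd ℂ) (Fd u t) := fun t => by
    rw [hdF t, Complex.mul_conj, Complex.normSq_eq_norm_sq]
  have s1 : ∫ t in V..(2 * V), Oe D a a2 j₀ t * ((‖dp N b t‖ ^ 2 : ℝ) : ℂ) =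
      (∫ t in V..(2 * V), Φ t * ((UP D j₀).toList.map fun p => qp p (ww a p) (vv a2 p) t).prod * Fd u t * (starRingEnd ℂ) (Fd u t)) +
      ∫ t in V..(2 * V), (Oe D a a2 j₀ t - Φ t * ((UP D j₀).toList.map fun p => qp p (ww a p) (vv a2 p) t).prod) *
        (Fd u t * (starRingEnd ℂ) (Fd u t)) := by
    rw [← intervalIntegral.integral_add]
    · refine intervalIntegral.integral_congr fun t _ => ?_
      simp only [e0]
      ring
    · exact (((cΦ.mul cQ).mul cu).mul cju).intervalIntegrable _ _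
    · exact ((cO.sub (cΦ.mul cQ)).mul (cu.mul cju)).intervalIntegrable _ _
  have s2 : ‖∫ t in V..(2 * V), (Oe D a a2 j₀ t - Φ t * ((UP D j₀).toList.map fun p => qp p (ww a p) (vv a2 p) t).prod) *
        (Fd u t * (starRingEnd ℂ) (Fd u t))‖ ≤ c * ∫ t in V..(2 * V), ‖Fd u t‖ ^ 2 := by
    rw [← intervalIntegral.integral_const_mul]
    refine intervalIntegral.norm_integral_le_of_norm_le hV2 (Filter.Eventually.of_forall fun t _ => ?_) ?_
    · rw [norm_mul, norm_mul, RCLike.norm_conj, ← sq]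
      exact mul_le_mul_of_nonneg_right (hpt t) (by positivity)
    · exact (continuous_const.mul (cu.norm.pow 2)).intervalIntegrable _ _
  have s3 : ‖∫ t in V..(2 * V), Φ t * Fd f t * (starRingEnd ℂ) (Fd u t)‖ ≤
      Real.exp (E / 8) * (∫ t in V..(2 * V), ‖Fd f t‖ ^ 2) + Real.exp (-(E / 8)) * ∫ t in V..(2 * V), ‖Fd u t‖ ^ 2 := by
    rw [← intervalIntegral.integral_const_mul, ← intervalIntegral.integral_const_mul, ← intervalIntegral.integral_add]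
    · refine intervalIntegral.norm_integral_le_of_norm_le hV2 (Filter.Eventually.of_forall fun t _ => ?_) ?_
      · rw [norm_mul, norm_mul, RCLike.norm_conj]
        exact amgm E _ _ _ (norm_nonneg _) (norm_nonneg _) (hΦ2 t)
      · exact ((continuous_const.mul (cf.norm.pow 2)).add (continuous_const.mul (cu.norm.pow 2))).intervalIntegrable _ _
    · exact (continuous_const.mul (cf.norm.pow 2)).intervalIntegrable _ _
    · exact (continuous_const.mul (cu.norm.pow 2)).intervalIntegrable _ _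
  rw [s1]
  refine (norm_add_le _ _).trans ?_
  generalize (∫ t in V..(2 * V), Φ t * ((UP D j₀).toList.map fun p => qp p (ww a p) (vv a2 p) t).prod * Fd u t * (starRingEnd ℂ) (Fd u t)) = A1 at hV ⊢
  generalize (∫ t in V..(2 * V), (Oe D a a2 j₀ t - Φ t * ((UP D j₀).toList.map fun p => qp p (ww a p) (vv a2 p) t).prod) *
        (Fd u t * (starRingEnd ℂ) (Fd u t))) = A3 at s2 ⊢
  generalize (∫ t in V..(2 * V), Φ t * Fd f t * (starRingEnd ℂ) (Fd u t)) = A2 at hV s3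
  generalize (∫ t in V..(2 * V), ‖Fd f t‖ ^ 2) = I1 at hV s3
  generalize (∫ t in V..(2 * V), ‖Fd u t‖ ^ 2) = I2 at hV s2 s3
  have s4 : ‖A1‖ ≤ V * ‖((V⁻¹ : ℝ) : ℂ) * A1 - ((V⁻¹ : ℝ) : ℂ) * A2‖ + ‖A2‖ := by
    have t1 : A1 = (V : ℂ) * (((V⁻¹ : ℝ) : ℂ) * A1 - ((V⁻¹ : ℝ) : ℂ) * A2) + A2 := by
      have : (V : ℂ) ≠ 0 := by exact_mod_cast hV0.ne'
      push_cast
      field_simp
      ring
    calc ‖A1‖ = ‖(V : ℂ) * (((V⁻¹ : ℝ) : ℂ) * A1 - ((V⁻¹ : ℝ) : ℂ) * A2) + A2‖ := by rw [← t1]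
      _ ≤ ‖(V : ℂ) * (((V⁻¹ : ℝ) : ℂ) * A1 - ((V⁻¹ : ℝ) : ℂ) * A2)‖ + ‖A2‖ := norm_add_le _ _
      _ = _ := by rw [norm_mul, Complex.norm_real, Real.norm_eq_abs, abs_of_pos hV0]
  have hfin := mul_lt_mul_of_pos_left hV hV0
  have k : V * (‖((V⁻¹ : ℝ) : ℂ) * A1 - ((V⁻¹ : ℝ) : ℂ) * A2‖ + Real.exp (E / 8) * (V⁻¹ * I1) +
      Real.exp (-(E / 8)) * (V⁻¹ * I2) + c * (V⁻¹ * I2)) =
      V * ‖((V⁻¹ : ℝ) : ℂ) * A1 - ((V⁻¹ : ℝ) : ℂ) * A2‖ + Real.exp (E / 8) * I1 + Real.exp (-(E / 8)) * I2 + c * I2 := by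
    have hv : V * V⁻¹ = 1 := mul_inv_cancel₀ hV0.ne'
    linear_combination (Real.exp (E / 8) * I1 + Real.exp (-(E / 8)) * I2 + c * I2) * hv
  rw [k] at hfin
  have k3 : V * (2 * C₀ * (Real.exp (-(1 / 8) * E) + 1 / D) * N2 N b) =
      2 * C₀ * (Real.exp (-(1 / 8) * E) + 1 / D) * (V * N2 N b) := by ring
  rw [k3] at hfin
  linarith

end

end Pool.Agent.Run7.h304.UC
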